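import Mathlib

/-! `PGL(2,q)` is not strict EKR robust for odd `q`. -/

namespace Pool.Agent.Results.MP_6fd06d_co.NotStrictRobust

open OnePoint Matrix

section general

variable {Ω : Type*} (G : Subgroup (Equiv.Perm Ω))

/-- The derangements of a permutation group. -/
def Der : Set G := {g | ∀ ω : Ω, g.val ω ≠ ω}

/-- The derangements mapping `i` to `j`. -/
def DerTo (i j : Ω) : Set G := {g | g ∈ Der G ∧ g.val i = j}

/-- The Cayley graph `Cay(G,S)` for inverse-closed `S`: distinct `g, h` are adjacent iff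
`h g⁻¹ ∈ S`. -/
def Cay (S : Set G) : SimpleGraph G := SimpleGraph.fromRel fun g h => h * g⁻¹ ∈ S

/-- Strict EKR robustness of a finite transitive permutation group. -/
def StrictEKRRobust : Prop :=
  ∀ D : Set G, D ⊆ Der G → (∀ g ∈ D, g⁻¹ ∈ D) →
    (¬ ∃ i j : Ω, i ≠ j ∧ DerTo G i j ∪ DerTo G j i ⊆ D) →
    (Cay G (Der G \ D)).indepNum = Nat.card G / Nat.card Ω

end general

variable (F : Type*) [Field F] [DecidableEq F]

/-- `PGL(2,F)` as a group of permutations of the projective line `F ∪ {∞}`: the image of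
`GL(2,F)` under the action by fractional linear transformations. -/
def PGL2 : Subgroup (Equiv.Perm (OnePoint F)) :=
  (MulAction.toPermHom (GL (Fin 2) F) (OnePoint F)).range

variable {F}

/-- matrices with the given entries -/
noncomputable def mk (a b c d : F) (h : a * d - b * c ≠ 0) : GL (Fin 2) F :=
  Matrix.GeneralLinearGroup.mkOfDetNeZero !![a, b; c, d] (by rwa [Matrix.det_fin_two_of])

omit [DecidableEq F] in
theorem det_mk (a b c d : F) (h : a * d - b * c ≠ 0) :
    (mk a b c d h : Matrix (Fin 2) (Fin 2) F).det = a * d - b * c := by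
  simp [mk, Matrix.GeneralLinearGroup.mkOfDetNeZero, Matrix.det_fin_two_of]

omit [DecidableEq F] in
theorem mk_coe (a b c d : F) (h : a * d - b * c ≠ 0) :
    (mk a b c d h : Matrix (Fin 2) (Fin 2) F) = !![a, b; c, d] := rfl

omit [DecidableEq F] in
theorem det_ne (A : GL (Fin 2) F) : (A : Matrix (Fin 2) (Fin 2) F).det ≠ 0 :=
  Matrix.GeneralLinearGroup.det_ne_zero A

/-- a matrix acting trivially has determinant a nonzero square -/
theorem det_of_trivial (C : GL (Fin 2) F) (h : ∀ x : OnePoint F, C • x = x) :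
    ∃ l : F, (C : Matrix (Fin 2) (Fin 2) F).det = l * l := by
  have h1 := h ∞
  rw [smul_infty_eq_self_iff] at h1
  have h2 := h ((0 : F) : OnePoint F)
  have h3 := h ((1 : F) : OnePoint F)
  have hdet := det_ne C
  rw [Matrix.det_fin_two, h1, mul_zero, sub_zero] at hdet
  have h00 : (C : Matrix (Fin 2) (Fin 2) F) 0 0 ≠ 0 := left_ne_zero_of_mul hdet
  have h11 : (C : Matrix (Fin 2) (Fin 2) F) 1 1 ≠ 0 := right_ne_zero_of_mul hdet
  rw [smul_some_eq_ite, h1] at h2 h3
  simp only [mul_zero, zero_add, h11, if_false, zero_mul, OnePoint.coe_eq_coe, div_eq_iff,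
    ne_eq, not_false_eq_true, mul_one, one_mul] at h2 h3
  refine ⟨(C : Matrix (Fin 2) (Fin 2) F) 0 0, ?_⟩
  rw [Matrix.det_fin_two, h1, mul_zero, sub_zero]
  rw [h2, add_zero] at h3
  rw [← h3]

theorem exists_trace [Fintype F] (hF : ringChar F ≠ 2) (δ : F) (hδ : ¬ IsSquare δ) :
    ∃ t : F, ¬ IsSquare (t ^ 2 - 4 * δ) := by
  by_contra hcon
  push Not at hcon
  apply hδ
  obtain ⟨f, hf⟩ := hcon 0
  have h2 : (2 : F) ≠ 0 := Ring.two_ne_zero hF
  have hδ0 : δ ≠ 0 := by
    rintro rfl
    exact hδ (IsSquare.zero)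
  have hf0 : f ≠ 0 := by
    rintro rfl
    have : 4 * δ = 0 := by
      have : (0 : F) ^ 2 - 4 * δ = 0 := by rw [hf]; ring
      linear_combination -this
    have h4 : (4 : F) = 2 * 2 := by norm_num
    rw [h4] at this
    simp [h2, hδ0] at this
  obtain ⟨a, b, hab⟩ : ∃ a b : F, a ^ 2 + b ^ 2 = δ := by
    have hodd : Fintype.card F % 2 = 1 := FiniteField.odd_card_of_char_ne_two hF
    obtain ⟨a, b, hab⟩ := FiniteField.exists_root_sum_quadratic (R := F)
      (f := Polynomial.X ^ 2) (g := Polynomial.X ^ 2 - Polynomial.C δ)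
      (Polynomial.degree_X_pow 2) (Polynomial.degree_X_pow_sub_C (by norm_num) _) hodd
    refine ⟨a, b, ?_⟩
    simp only [Polynomial.eval_pow, Polynomial.eval_X, Polynomial.eval_sub,
      Polynomial.eval_C] at hab
    linear_combination hab
  by_cases hb : b = 0
  · subst hb
    exact ⟨a, by rw [← hab]; ring⟩
  · obtain ⟨g, hg⟩ := hcon (a * f / b)
    refine ⟨b / f * g, ?_⟩
    have e : (b / f * g) * (b / f * g) = (b / f) ^ 2 * (g * g) := by ring
    rw [e, ← hg]
    have hf' : -(4 * δ) = f * f := by linear_combination hf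
    have : (a * f / b) ^ 2 - 4 * δ = (a * f / b) ^ 2 + f * f := by linear_combination hf'
    rw [this]
    field_simp
    linear_combination -hab

/-- the determinant is a square -/
def Sq (A : GL (Fin 2) F) : Prop := IsSquare (A : Matrix (Fin 2) (Fin 2) F).det

theorem sq_of_same {A B : GL (Fin 2) F}
    (h : MulAction.toPermHom (GL (Fin 2) F) (OnePoint F) A =
      MulAction.toPermHom (GL (Fin 2) F) (OnePoint F) B) (hB : Sq B) : Sq A := by
  have h1 : ∀ x : OnePoint F, (B⁻¹ * A) • x = x := by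
    intro x
    have h2 : A • x = B • x := by
      have := congrArg (fun f => f x) h
      simpa using this
    rw [mul_smul, h2, inv_smul_smul]
  obtain ⟨l, hl⟩ := det_of_trivial _ h1
  obtain ⟨m, hm⟩ := hB
  have h3 : (A : Matrix (Fin 2) (Fin 2) F).det =
      (B : Matrix (Fin 2) (Fin 2) F).det * ((B⁻¹ * A : GL (Fin 2) F) :
        Matrix (Fin 2) (Fin 2) F).det := by
    rw [← Matrix.det_mul, ← Matrix.GeneralLinearGroup.coe_mul, mul_inv_cancel_left]
  refine ⟨m * l, ?_⟩
  rw [h3, hm, hl]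
  ring

/-- the special derangement and its conjugates -/
theorem exists_der [Fintype F] (hF : ringChar F ≠ 2) (i j : OnePoint F) (hij : i ≠ j) :
    ∃ A : GL (Fin 2) F, ¬ Sq A ∧ (∀ x : OnePoint F, A • x ≠ x) ∧ A • i = j := by
  obtain ⟨δ, hδ⟩ := FiniteField.exists_nonsquare hF
  obtain ⟨t, ht⟩ := exists_trace hF δ hδ
  have hδ0 : δ ≠ 0 := by
    rintro rfl
    exact hδ (IsSquare.zero)
  let A0 := mk 0 (-δ) 1 t (by simpa using hδ0)
  have hA0det : (A0 : Matrix (Fin 2) (Fin 2) F).det = δ := by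
    rw [det_mk]; ring
  have hA0inf : A0 • (∞ : OnePoint F) = ((0 : F) : OnePoint F) := by
    rw [smul_infty_eq_ite, mk_coe]
    simp
  have hA0der : ∀ x : OnePoint F, A0 • x ≠ x := by
    intro x
    cases x with
    | infty => rw [hA0inf]; simp
    | coe k =>
      rw [smul_some_eq_ite, mk_coe]
      simp only [Matrix.of_apply, Matrix.cons_val', Matrix.cons_val_zero, Matrix.cons_val_one,
        Matrix.cons_val_fin_one, one_mul, zero_mul, zero_add]
      split_ifs with h
      · simp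
      · intro h2
        rw [OnePoint.coe_eq_coe, div_eq_iff h] at h2
        apply ht
        refine ⟨2 * k + t, ?_⟩
        linear_combination 4 * h2
  -- a matrix mapping `∞, 0` to `i, j`
  obtain ⟨H, hH1, hH2⟩ : ∃ H : GL (Fin 2) F, H • (∞ : OnePoint F) = i ∧
      H • ((0 : F) : OnePoint F) = j := by
    cases i with
    | infty =>
      cases j with
      | infty => exact absurd rfl hij
      | coe b =>
        refine ⟨mk 1 b 0 1 (by simp), ?_, ?_⟩
        · rw [smul_infty_eq_ite, mk_coe]; simp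
        · rw [smul_some_eq_ite, mk_coe]; simp
    | coe a =>
      cases j with
      | infty =>
        refine ⟨mk a 1 1 0 (by simp), ?_, ?_⟩
        · rw [smul_infty_eq_ite, mk_coe]; simp
        · rw [smul_some_eq_ite, mk_coe]; simp
      | coe b =>
        have hab : a ≠ b := fun e => hij (by rw [e])
        refine ⟨mk a b 1 1 (by simpa [sub_ne_zero] using hab), ?_, ?_⟩
        · rw [smul_infty_eq_ite, mk_coe]; simp
        · rw [smul_some_eq_ite, mk_coe]; simp
  refine ⟨H * A0 * H⁻¹, ?_, ?_, ?_⟩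
  · unfold Sq
    have : ((H * A0 * H⁻¹ : GL (Fin 2) F) : Matrix (Fin 2) (Fin 2) F).det = δ := by
      rw [Matrix.GeneralLinearGroup.coe_mul, Matrix.GeneralLinearGroup.coe_mul, Matrix.det_mul,
        Matrix.det_mul, hA0det, mul_right_comm, ← Matrix.det_mul,
        ← Matrix.GeneralLinearGroup.coe_mul, mul_inv_cancel]
      simp
    rw [this]
    exact hδ
  · intro x hx
    apply hA0der (H⁻¹ • x)
    rw [mul_smul, mul_smul, smul_eq_iff_eq_inv_smul] at hx
    exact hx
  · rw [mul_smul, mul_smul, ← hH1, inv_smul_smul, hA0inf, hH2]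

/-- For every finite field `F` of odd characteristic, `PGL(2,F)` in its action on the projective
line is not strict EKR robust. -/
theorem result (F : Type*) [Field F] [DecidableEq F] [Finite F] (hF : ringChar F ≠ 2) :
    ¬ StrictEKRRobust (PGL2 F) := by
  classical
  have : Fintype F := Fintype.ofFinite F
  intro hrob
  let φ := MulAction.toPermHom (GL (Fin 2) F) (OnePoint F)
  let N : Set (PGL2 F) := {g | ∃ A : GL (Fin 2) F, Sq A ∧ φ A = g.val}
  have hNmul : ∀ g ∈ N, ∀ h ∈ N, h * g⁻¹ ∈ N := by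
    rintro g ⟨A, ⟨l, hl⟩, hA2⟩ h ⟨B, ⟨m, hm⟩, hB2⟩
    refine ⟨B * A⁻¹, ?_, ?_⟩
    · have hA0 := det_ne A
      have hl0 : l ≠ 0 := by
        rintro rfl
        apply hA0
        rw [hl]; ring
      refine ⟨m * l⁻¹, ?_⟩
      have e1 : (A : Matrix (Fin 2) (Fin 2) F).det *
          ((A⁻¹ : GL (Fin 2) F) : Matrix (Fin 2) (Fin 2) F).det = 1 := by
        rw [← Matrix.det_mul, ← Matrix.GeneralLinearGroup.coe_mul, mul_inv_cancel]
        simp
      rw [Matrix.GeneralLinearGroup.coe_mul, Matrix.det_mul, hm]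
      rw [hl] at e1
      field_simp
      linear_combination (m ^ 2) * e1
    · rw [map_mul, map_inv, hA2, hB2]
      rfl
  let D : Set (PGL2 F) := Der (PGL2 F) ∩ N
  have hDinv : ∀ g ∈ D, g⁻¹ ∈ D := by
    rintro g ⟨h1, h2⟩
    refine ⟨?_, ?_⟩
    · intro ω hω
      apply h1 ω
      have h3 : g.val⁻¹ ω = ω := hω
      calc g.val ω = g.val (g.val⁻¹ ω) := by rw [h3]
        _ = ω := by simp
    · have hone : (1 : PGL2 F) ∈ N := by
        refine ⟨1, ⟨1, by simp⟩, ?_⟩
        rw [map_one]; rfl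
      simpa using hNmul g h2 1 hone
  have hnot : ¬ ∃ i j : OnePoint F, i ≠ j ∧ DerTo (PGL2 F) i j ∪ DerTo (PGL2 F) j i ⊆ D := by
    rintro ⟨i, j, hij, hsub⟩
    obtain ⟨A, hA1, hA2, hA3⟩ := exists_der hF i j hij
    have hmem : (⟨φ A, ⟨A, rfl⟩⟩ : PGL2 F) ∈ DerTo (PGL2 F) i j := by
      refine ⟨fun ω => ?_, ?_⟩
      · simpa [φ] using hA2 ω
      · simpa [φ] using hA3
    obtain ⟨-, B, hB, hB2⟩ := hsub (Or.inl hmem)
    exact hA1 (sq_of_same hB2.symm hB)
  have hα := hrob D Set.inter_subset_left hDinv hnot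
  -- `N` is independent
  have hfin : Finite (PGL2 F) := inferInstance
  have hind : (Cay (PGL2 F) (Der (PGL2 F) \ D)).IsIndepSet (N.toFinite.toFinset : Set (PGL2 F)) := by
    intro g hg h hh _ hadj
    rw [Set.Finite.coe_toFinset] at hg hh
    obtain ⟨-, h1 | h1⟩ := hadj
    · exact h1.2 ⟨h1.1, hNmul g hg h hh⟩
    · exact h1.2 ⟨h1.1, hNmul h hh g hg⟩
  have hle := hind.card_le_indepNum
  rw [hα] at hle
  have hNcard : N.toFinite.toFinset.card = N.ncard := by
    rw [← Set.ncard_eq_toFinset_card]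
  rw [hNcard] at hle
  -- `|G| ≤ 2 |N|`
  have hG : Nat.card (PGL2 F) ≤ 2 * N.ncard := by
    obtain ⟨δ, hδ⟩ := FiniteField.exists_nonsquare hF
    have hδ0 : δ ≠ 0 := by
      rintro rfl
      exact hδ (IsSquare.zero)
    let A0 := mk δ 0 0 1 (by simpa using hδ0)
    have hA0 : (A0 : Matrix (Fin 2) (Fin 2) F).det = δ := by rw [det_mk]; ring
    let g0 : PGL2 F := ⟨φ A0, ⟨A0, rfl⟩⟩
    have hcov : (Set.univ : Set (PGL2 F)) ⊆ N ∪ (fun g => g0 * g) '' N := by
      rintro ⟨g, A, rfl⟩ -
      by_cases hA : Sq A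
      · exact Or.inl ⟨A, hA, rfl⟩
      · right
        refine ⟨⟨φ (A0⁻¹ * A), ⟨_, rfl⟩⟩, ⟨A0⁻¹ * A, ?_, rfl⟩, ?_⟩
        · have e1 : (A0 : Matrix (Fin 2) (Fin 2) F).det *
              ((A0⁻¹ * A : GL (Fin 2) F) : Matrix (Fin 2) (Fin 2) F).det =
              (A : Matrix (Fin 2) (Fin 2) F).det := by
            rw [← Matrix.det_mul, ← Matrix.GeneralLinearGroup.coe_mul, mul_inv_cancel_left]
          have hB0 := det_ne (A0⁻¹ * A)
          have hA' := det_ne A
          unfold Sq at hA ⊢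
          rw [← quadraticChar_neg_one_iff_not_isSquare] at hA hδ
          rw [← quadraticChar_one_iff_isSquare hB0]
          rw [hA0] at e1
          rw [← e1, map_mul, hδ] at hA
          linarith
        · apply Subtype.ext
          show φ A0 * φ (A0⁻¹ * A) = φ A
          rw [← map_mul, mul_inv_cancel_left]
    calc Nat.card (PGL2 F) = (Set.univ : Set (PGL2 F)).ncard := (Set.ncard_univ _).symm
      _ ≤ (N ∪ (fun g => g0 * g) '' N).ncard := Set.ncard_le_ncard hcov
      _ ≤ N.ncard + ((fun g => g0 * g) '' N).ncard := Set.ncard_union_le _ _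
      _ ≤ N.ncard + N.ncard := Nat.add_le_add_left (Set.ncard_image_le) _
      _ = 2 * N.ncard := by ring
  have hn : 4 ≤ Nat.card (OnePoint F) := by
    have h1 : Nat.card (OnePoint F) = Nat.card F + 1 := by
      have : Nat.card (OnePoint F) = Nat.card (Option F) := rfl
      rw [this, Finite.card_option]
    have h2 : Fintype.card F % 2 = 1 := FiniteField.odd_card_of_char_ne_two hF
    have h3 : 1 < Fintype.card F := Fintype.one_lt_card
    rw [h1, Nat.card_eq_fintype_card]
    omega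
  have hGpos : 0 < Nat.card (PGL2 F) := Nat.card_pos
  have h5 : Nat.card (PGL2 F) / Nat.card (OnePoint F) ≤ Nat.card (PGL2 F) / 4 :=
    Nat.div_le_div_left hn (by norm_num)
  omega

end Pool.Agent.Results.MP_6fd06d_co.NotStrictRobust
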